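import Mathlib

/-!
# Values of the number of representations as square + pentagonal + hexagonal number
-/

set_option autoImplicit false

namespace Pool.Agent.Results.MP_c67a52_nt.ManyValues

/-- The `k`-gonal number with index `x`. -/
def gon (k x : ℕ) : ℕ := x + (k - 2) * x.choose 2

/-- The number of the triples `(x, y, z)` with `n = p₄(x) + p₅(y) + p₆(z)`. -/
noncomputable def a (n : ℕ) : ℕ :=
  {t : ℕ × ℕ × ℕ | gon 4 t.1 + gon 5 t.2.1 + gon 6 t.2.2 = n}.ncard

lemma choose_two (x : ℕ) : 2 * x.choose 2 + x = x * x := by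
  induction x with
  | zero => simp
  | succ n ih =>
    rw [Nat.choose_succ_succ' n 1, Nat.choose_one_right]
    nlinarith

lemma gon4 (x : ℕ) : gon 4 x = x * x := by
  have := choose_two x
  unfold gon
  omega

lemma gon5_le (x : ℕ) : gon 5 x ≤ 2 * (x * x) := by
  have := choose_two x
  unfold gon
  have h : x ≤ x * x := Nat.le_mul_self x
  omega

lemma gon6_le (x : ℕ) : gon 6 x ≤ 2 * (x * x) := by
  have := choose_two x
  unfold gon
  omega

lemma le_gon5 (x : ℕ) : x * x ≤ gon 5 x := by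
  have := choose_two x
  unfold gon
  omega

lemma le_gon6 (x : ℕ) : x * x ≤ gon 6 x := by
  have := choose_two x
  unfold gon
  omega

lemma finite_and_le (n : ℕ) : {t : ℕ × ℕ × ℕ | gon 4 t.1 + gon 5 t.2.1 + gon 6 t.2.2 = n}.Finite ∧
    a n ≤ (Nat.sqrt n + 1) * (Nat.sqrt n + 1) := by
  set S := {t : ℕ × ℕ × ℕ | gon 4 t.1 + gon 5 t.2.1 + gon 6 t.2.2 = n} with hS
  let T : Finset (ℕ × ℕ) := Finset.range (Nat.sqrt n + 1) ×ˢ Finset.range (Nat.sqrt n + 1)
  have hmaps : Set.MapsTo (fun t : ℕ × ℕ × ℕ => t.2) S (T : Set (ℕ × ℕ)) := by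
    rintro ⟨x, y, z⟩ ht
    have ht' : gon 4 x + gon 5 y + gon 6 z = n := ht
    have h5 := le_gon5 y
    have h6 := le_gon6 z
    have hy : y ≤ Nat.sqrt n := Nat.le_sqrt.2 (by omega)
    have hz : z ≤ Nat.sqrt n := Nat.le_sqrt.2 (by omega)
    simp only [T, Finset.coe_product, Finset.coe_range, Set.mem_prod, Set.mem_Iio]
    exact ⟨by omega, by omega⟩
  have hinj : Set.InjOn (fun t : ℕ × ℕ × ℕ => t.2) S := by
    rintro ⟨x, y, z⟩ ht ⟨x', y', z'⟩ ht' h
    have h1 : gon 4 x + gon 5 y + gon 6 z = n := ht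
    have h2 : gon 4 x' + gon 5 y' + gon 6 z' = n := ht'
    simp only [Prod.mk.injEq] at h
    obtain ⟨rfl, rfl⟩ := h
    rw [gon4] at h1 h2
    have h3 : x * x = x' * x' := by omega
    have h4 : x = x' := Nat.mul_self_inj.1 h3
    rw [h4]
  have hfin : S.Finite := Set.Finite.of_injOn hmaps hinj T.finite_toSet
  refine ⟨hfin, ?_⟩
  have h := Set.ncard_le_ncard_of_injOn (fun t : ℕ × ℕ × ℕ => t.2) hmaps hinj T.finite_toSet
  rw [Set.ncard_coe_finset] at h
  simpa [T, a] using h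

lemma exists_large (K : ℕ) (hK : 1 ≤ K) : ∃ n, n ≤ 180 * K ^ 2 ∧ K < a n := by
  classical
  let m := 6 * K
  let s : Finset (ℕ × ℕ × ℕ) := Finset.range (m + 1) ×ˢ Finset.range (m + 1) ×ˢ Finset.range (m + 1)
  let f : ℕ × ℕ × ℕ → ℕ := fun t => gon 4 t.1 + gon 5 t.2.1 + gon 6 t.2.2
  let B := 180 * K ^ 2
  have hmaps : ∀ t ∈ s, f t ∈ Finset.range (B + 1) := by
    rintro ⟨x, y, z⟩ ht
    simp only [s, Finset.mem_product, Finset.mem_range] at ht
    obtain ⟨hx, hy, hz⟩ := ht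
    have e4 := gon4 x
    have e5 := gon5_le y
    have e6 := gon6_le z
    have hx' : x * x ≤ m * m := Nat.mul_le_mul (by omega) (by omega)
    have hy' : y * y ≤ m * m := Nat.mul_le_mul (by omega) (by omega)
    have hz' : z * z ≤ m * m := Nat.mul_le_mul (by omega) (by omega)
    have hm : m * m = 36 * K ^ 2 := by simp only [m]; ring
    simp only [f, Finset.mem_range, B]
    omega
  have hcard : (Finset.range (B + 1)).card * K < s.card := by
    have hK0 : 0 < K := hK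
    simp only [s, Finset.card_product, Finset.card_range, m, B]
    nlinarith [pow_pos hK0 3, pow_pos hK0 2]
  obtain ⟨n, hn, hlt⟩ := Finset.exists_lt_card_fiber_of_mul_lt_card_of_maps_to hmaps hcard
  refine ⟨n, by simpa [B, Nat.lt_succ_iff] using hn, hlt.trans_le ?_⟩
  rw [← Set.ncard_coe_finset]
  refine Set.ncard_le_ncard ?_ (finite_and_le n).1
  intro t ht
  simp only [Finset.coe_filter, Set.mem_ofPred_eq] at ht
  exact ht.2

/-- For every `K ≥ 1` there is `n ≤ 180 K²` with `K < a(n) ≤ 225 K²`; so infinitely many positive integers are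
values of `a`. -/
theorem result : (∀ K : ℕ, 1 ≤ K → ∃ n, n ≤ 180 * K ^ 2 ∧ K < a n ∧ a n ≤ 225 * K ^ 2) ∧
    (Set.range a).Infinite := by
  have h1 : ∀ K : ℕ, 1 ≤ K → ∃ n, n ≤ 180 * K ^ 2 ∧ K < a n ∧ a n ≤ 225 * K ^ 2 := by
    intro K hK
    obtain ⟨n, hn, hlt⟩ := exists_large K hK
    refine ⟨n, hn, hlt, (finite_and_le n).2.trans ?_⟩
    have hs : Nat.sqrt n ≤ 14 * K := by
      have h : Nat.sqrt n * Nat.sqrt n ≤ n := Nat.sqrt_le n
      by_contra hcon
      push Not at hcon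
      have : (14 * K) * (14 * K) < Nat.sqrt n * Nat.sqrt n := Nat.mul_lt_mul'' hcon hcon
      have hK0 : 0 < K := hK
      nlinarith [pow_pos hK0 2]
    calc (Nat.sqrt n + 1) * (Nat.sqrt n + 1) ≤ (15 * K) * (15 * K) :=
          Nat.mul_le_mul (by omega) (by omega)
      _ = 225 * K ^ 2 := by ring
  refine ⟨h1, ?_⟩
  intro hfin
  obtain ⟨M, hM⟩ := hfin.bddAbove
  obtain ⟨n, -, hn, -⟩ := h1 (M + 1) (by omega)
  have := hM ⟨n, rfl⟩
  omega

end Pool.Agent.Results.MP_c67a52_nt.ManyValues
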